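import Mathlib

/-!
# The MLE of a scale mixture of uniforms can be of order `(log n) ^ (d - 1 / 2)` at the origin

Let `G₀` be the law of `y_c = (exp (-c²), exp (c²), 1, …, 1)` where the label `c` has the slowly
decaying tail `P (c ≥ m) = (1 + log (1 + m)) ^ (-1 / 2)`. Then `|y_c| = 1`, so that `f₀ (0) = 1`.
For every maximum likelihood estimator `Ĝ` one has `f̂ (X_i) ≥ 1 / (n |X_i|)`, and the sets
`{y ≥ X_i}` for the observations with a label `≥ n³` are almost disjoint for `dĜ / |y|`. Hence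
`f̂ (0)` is at least `(1 / n) ∑ 1 / |X_i| - 1` over these observations, which is of order
`(log n) ^ (d - 1 / 2)` or more.
-/

open MeasureTheory ProbabilityTheory Filter Topology
open scoped ENNReal NNReal

namespace Pool.Agent.Results.MP_a4ac49_pr.OriginBlowup

/-- `|y| = y₁ ⋯ y_d`. -/
noncomputable def vol {d : ℕ} (y : Fin d → ℝ) : ℝ := ∏ l, y l

/-- `G` is a Borel probability distribution on `(0, ∞)^d`. -/
structure Mixing {d : ℕ} (G : Measure (Fin d → ℝ)) : Prop where
  prob : IsProbabilityMeasure G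
  pos : ∀ᵐ y ∂G, ∀ l, 0 < y l

/-- The function `f_G (x) = ∫_{y ≥ x} dG (y) / |y|`. -/
noncomputable def dens {d : ℕ} (G : Measure (Fin d → ℝ)) (x : Fin d → ℝ) : ℝ≥0∞ :=
  ∫⁻ y in {y | ∀ l, x l ≤ y l}, ENNReal.ofReal (1 / vol y) ∂G

/-- The value `f_G (0) = ∫ dG (y) / |y|`. -/
noncomputable def atOrigin {d : ℕ} (G : Measure (Fin d → ℝ)) : ℝ≥0∞ :=
  ∫⁻ y, ENNReal.ofReal (1 / vol y) ∂G

/-- The law on `(0, ∞)^d` with density `f_G`. -/
noncomputable def law {d : ℕ} (G : Measure (Fin d → ℝ)) : Measure (Fin d → ℝ) :=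
  (volume.restrict {x | ∀ l, 0 < x l}).withDensity (dens G)

/-- `G` is a maximum likelihood estimator of the mixing distribution for the sample `x`: it
maximises the likelihood `∏ f_G (x i)`. -/
def IsMLE {d n : ℕ} (x : Fin n → Fin d → ℝ) (G : Measure (Fin d → ℝ)) : Prop :=
  Mixing G ∧ ∀ G' : Measure (Fin d → ℝ), Mixing G' → ∏ i, dens G' (x i) ≤ ∏ i, dens G (x i)

section Basic

variable {d : ℕ} {G : Measure (Fin d → ℝ)}

lemma vol_pos {y : Fin d → ℝ} (hy : ∀ l, 0 < y l) : 0 < vol y := Finset.prod_pos fun l _ => hy l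

lemma vol_mono {x y : Fin d → ℝ} (hx : ∀ l, 0 < x l) (hxy : ∀ l, x l ≤ y l) : vol x ≤ vol y :=
  Finset.prod_le_prod (fun l _ => (hx l).le) fun l _ => hxy l

lemma measurable_vol : Measurable (vol : (Fin d → ℝ) → ℝ) := by
  unfold vol
  fun_prop

lemma measurable_w : Measurable fun y : Fin d → ℝ => ENNReal.ofReal (1 / vol y) :=
  (measurable_const.div measurable_vol).ennreal_ofReal

lemma measurableSet_up (x : Fin d → ℝ) : MeasurableSet {y : Fin d → ℝ | ∀ l, x l ≤ y l} := by
  have : {y : Fin d → ℝ | ∀ l, x l ≤ y l} = ⋂ l, {y | x l ≤ y l} := by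
    ext y; simp
  rw [this]
  exact MeasurableSet.iInter fun l => measurableSet_le measurable_const (measurable_pi_apply l)

lemma dens_le (hG : Mixing G) {x : Fin d → ℝ} (hx : ∀ l, 0 < x l) :
    dens G x ≤ ENNReal.ofReal (1 / vol x) := by
  have := hG.prob
  unfold dens
  calc ∫⁻ y in {y | ∀ l, x l ≤ y l}, ENNReal.ofReal (1 / vol y) ∂G
      ≤ ∫⁻ _ in {y | ∀ l, x l ≤ y l}, ENNReal.ofReal (1 / vol x) ∂G := by
        refine setLIntegral_mono' (measurableSet_up x) fun y hy => ?_
        exact ENNReal.ofReal_le_ofReal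
          (one_div_le_one_div_of_le (vol_pos hx) (vol_mono hx hy))
    _ = ENNReal.ofReal (1 / vol x) * G {y | ∀ l, x l ≤ y l} := setLIntegral_const _ _
    _ ≤ ENNReal.ofReal (1 / vol x) * 1 := by gcongr; exact prob_le_one
    _ = _ := mul_one _

lemma dens_ne_top (hG : Mixing G) {x : Fin d → ℝ} (hx : ∀ l, 0 < x l) : dens G x ≠ ⊤ :=
  ne_top_of_le_ne_top ENNReal.ofReal_ne_top (dens_le hG hx)

lemma mixing_dirac {z : Fin d → ℝ} (hz : ∀ l, 0 < z l) : Mixing (Measure.dirac z) where
  prob := inferInstance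
  pos := by
    have hm : MeasurableSet {y : Fin d → ℝ | ∀ l, 0 < y l} := by
      have : {y : Fin d → ℝ | ∀ l, 0 < y l} = ⋂ l, {y | 0 < y l} := by
        ext y; simp
      rw [this]
      exact MeasurableSet.iInter fun l => measurableSet_lt measurable_const (measurable_pi_apply l)
    exact (ae_dirac_iff hm).2 hz

lemma dens_dirac (z x : Fin d → ℝ) : dens (Measure.dirac z) x =
    if ∀ l, x l ≤ z l then ENNReal.ofReal (1 / vol z) else 0 := by
  unfold dens
  rw [restrict_dirac' (measurableSet_up x)]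
  by_cases h : ∀ l, x l ≤ z l
  · rw [if_pos (show z ∈ {y : Fin d → ℝ | ∀ l, x l ≤ y l} from h), if_pos h]
    exact lintegral_dirac' _ measurable_w
  · rw [if_neg (show z ∉ {y : Fin d → ℝ | ∀ l, x l ≤ y l} from h), if_neg h]
    simp

lemma dens_add (G₁ G₂ : Measure (Fin d → ℝ)) (x : Fin d → ℝ) :
    dens (G₁ + G₂) x = dens G₁ x + dens G₂ x := by
  unfold dens
  rw [Measure.restrict_add, lintegral_add_measure]

lemma dens_smul (c : ℝ≥0∞) (G₁ : Measure (Fin d → ℝ)) (x : Fin d → ℝ) :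
    dens (c • G₁) x = c * dens G₁ x := by
  unfold dens
  rw [Measure.restrict_smul, lintegral_smul_measure, smul_eq_mul]

lemma dens_sum {ι : Type*} (s : Finset ι) (G' : ι → Measure (Fin d → ℝ)) (x : Fin d → ℝ) :
    dens (∑ j ∈ s, G' j) x = ∑ j ∈ s, dens (G' j) x := by
  classical
  induction s using Finset.induction_on with
  | empty => simp [dens]
  | insert a s ha ih => rw [Finset.sum_insert ha, Finset.sum_insert ha, dens_add, ih]

lemma Mixing.sum {ι : Type*} [Fintype ι] {w : ι → ℝ} (hw0 : ∀ j, 0 ≤ w j) (hw1 : ∑ j, w j = 1)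
    {G' : ι → Measure (Fin d → ℝ)} (hG' : ∀ j, Mixing (G' j)) :
    Mixing (∑ j, ENNReal.ofReal (w j) • G' j) where
  prob := by
    constructor
    have h1 : ∀ j, (G' j) Set.univ = 1 := fun j => (hG' j).prob.measure_univ
    simp only [Measure.coe_finsetSum, Finset.sum_apply, Measure.smul_apply, h1, smul_eq_mul,
      mul_one]
    rw [← ENNReal.ofReal_sum_of_nonneg fun j _ => hw0 j, hw1, ENNReal.ofReal_one]
  pos := by
    rw [ae_iff]
    simp only [Measure.coe_finsetSum, Finset.sum_apply, Measure.smul_apply, smul_eq_mul]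
    refine Finset.sum_eq_zero fun j _ => ?_
    have := (hG' j).pos
    rw [ae_iff] at this
    rw [this, mul_zero]

end Basic

section MLE

variable {d n : ℕ} {G : Measure (Fin d → ℝ)} {x : Fin n → Fin d → ℝ}

lemma likelihood_pos (hG : IsMLE x G) (hx : ∀ i l, 0 < x i l) (j : Fin n) :
    0 < ∏ i, dens G (x i) := by
  have hn : (0 : ℝ) < n := by exact_mod_cast (Fin.pos j)
  have h1 : Mixing (∑ i : Fin n, ENNReal.ofReal (1 / (n : ℝ)) • Measure.dirac (x i)) :=
    Mixing.sum (fun _ => by positivity) (by simp [hn.ne']) fun i => mixing_dirac (hx i)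
  refine lt_of_lt_of_le ?_ (hG.2 _ h1)
  refine pos_iff_ne_zero.2 (Finset.prod_ne_zero_iff.2 fun i _ => ?_)
  rw [dens_sum]
  refine (lt_of_lt_of_le ?_ (Finset.single_le_sum (fun _ _ => zero_le)
    (Finset.mem_univ i))).ne'
  rw [dens_smul, dens_dirac, if_pos fun l => le_rfl]
  exact ENNReal.mul_pos (ENNReal.ofReal_pos.2 (by positivity)).ne'
    (ENNReal.ofReal_pos.2 (one_div_pos.2 (vol_pos (hx i)))).ne'

/-- The characterisation of the MLE at the observations. -/
lemma dens_ge (hG : IsMLE x G) (hx : ∀ i l, 0 < x i l) (i : Fin n) :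
    ENNReal.ofReal (1 / (n * vol (x i))) ≤ dens G (x i) := by
  have hn : (0 : ℝ) < n := by exact_mod_cast (Fin.pos i)
  set v := 1 / vol (x i) with hv
  have hv0 : 0 < v := one_div_pos.2 (vol_pos (hx i))
  set F : Fin n → ℝ := fun j => (dens G (x j)).toReal with hF
  have hF' : ∀ j, dens G (x j) = ENNReal.ofReal (F j) := fun j =>
    (ENNReal.ofReal_toReal (dens_ne_top hG.1 (hx j))).symm
  have hF0 : ∀ j, 0 < F j := by
    intro j
    have h1 := likelihood_pos hG hx i
    have h2 := Finset.prod_ne_zero_iff.1 h1.ne' j (Finset.mem_univ j)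
    exact ENNReal.toReal_pos h2 (dens_ne_top hG.1 (hx j))
  have key : ∀ ε : ℝ, 0 < ε → ε < 1 → v * (1 - ε) ^ (n - 1) ≤ n * F i := by
    intro ε hε0 hε1
    have hGε : Mixing (ENNReal.ofReal (1 - ε) • G + ENNReal.ofReal ε • Measure.dirac (x i)) := by
      have h1 : Mixing (∑ j : Bool, ENNReal.ofReal (if j then 1 - ε else ε) •
          (if j then G else Measure.dirac (x i))) := by
        refine Mixing.sum (fun j => ?_) (by simp) fun j => ?_
        · split_ifs <;> linarith
        · split_ifs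
          · exact hG.1
          · exact mixing_dirac (hx i)
      simpa using h1
    have h2 := hG.2 _ hGε
    have h3 : ∀ j, ENNReal.ofReal ((1 - ε) * F j + (if j = i then ε * v else 0)) ≤
        dens (ENNReal.ofReal (1 - ε) • G + ENNReal.ofReal ε • Measure.dirac (x i)) (x j) := by
      intro j
      rw [dens_add, dens_smul, dens_smul, hF' j, ENNReal.ofReal_add
        (mul_nonneg (by linarith) (hF0 j).le) (by split_ifs <;> positivity),
        ENNReal.ofReal_mul (by linarith)]
      refine add_le_add le_rfl ?_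
      split_ifs with h
      · rw [h, dens_dirac, if_pos fun l => le_rfl, ENNReal.ofReal_mul hε0.le]
      · simp
    have h4 : ENNReal.ofReal (∏ j, ((1 - ε) * F j + (if j = i then ε * v else 0))) ≤
        ENNReal.ofReal (∏ j, F j) := by
      rw [ENNReal.ofReal_prod_of_nonneg (fun j _ => add_nonneg
        (mul_nonneg (by linarith) (hF0 j).le) (by split_ifs <;> positivity)),
        ENNReal.ofReal_prod_of_nonneg (fun j _ => (hF0 j).le)]
      refine (Finset.prod_le_prod' fun j _ => h3 j).trans (h2.trans (le_of_eq ?_))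
      exact Finset.prod_congr rfl fun j _ => hF' j
    rw [ENNReal.ofReal_le_ofReal_iff (Finset.prod_nonneg fun j _ => (hF0 j).le)] at h4
    rw [← Finset.mul_prod_erase _ _ (Finset.mem_univ i), ← Finset.mul_prod_erase _ F
      (Finset.mem_univ i), if_pos rfl] at h4
    have h5 : ∏ j ∈ Finset.univ.erase i, ((1 - ε) * F j + (if j = i then ε * v else 0)) =
        (1 - ε) ^ (n - 1) * ∏ j ∈ Finset.univ.erase i, F j := by
      rw [Finset.prod_congr rfl (fun j hj => by
        rw [if_neg (Finset.ne_of_mem_erase hj), add_zero]), Finset.prod_mul_distrib,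
        Finset.prod_const, Finset.card_erase_of_mem (Finset.mem_univ i), Finset.card_univ,
        Fintype.card_fin]
    rw [h5] at h4
    set Q := ∏ j ∈ Finset.univ.erase i, F j with hQ
    have hQ0 : 0 < Q := Finset.prod_pos fun j _ => hF0 j
    have h6 : ((1 - ε) * F i + ε * v) * (1 - ε) ^ (n - 1) ≤ F i := by
      have h7 : (((1 - ε) * F i + ε * v) * (1 - ε) ^ (n - 1)) * Q ≤ F i * Q := by linarith
      exact le_of_mul_le_mul_right h7 hQ0
    have h8 : (1 - ε) ^ n = (1 - ε) * (1 - ε) ^ (n - 1) := by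
      rw [← pow_succ']
      congr 1
      have := Fin.pos i
      omega
    have h9 : 1 - n * ε ≤ (1 - ε) ^ n := by
      have := one_add_mul_le_pow (a := -ε) (by linarith) n
      rw [← sub_eq_add_neg] at this
      linarith
    have h10 : ε * (v * (1 - ε) ^ (n - 1)) ≤ ε * (n * F i) := by
      have h11 : F i * (1 - (1 - ε) ^ n) ≤ F i * (n * ε) :=
        mul_le_mul_of_nonneg_left (by linarith) (hF0 i).le
      rw [h8] at h11
      linarith
    exact le_of_mul_le_mul_left h10 hε0
  have hlim : v ≤ n * F i := by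
    have h1 : Tendsto (fun ε : ℝ => v * (1 - ε) ^ (n - 1)) (𝓝[>] 0) (𝓝 (v * (1 - 0) ^ (n - 1))) := by
      refine Tendsto.mono_left ?_ nhdsWithin_le_nhds
      exact Continuous.tendsto (by fun_prop) 0
    rw [sub_zero, one_pow, mul_one] at h1
    refine le_of_tendsto h1 ?_
    filter_upwards [Ioo_mem_nhdsGT (show (0 : ℝ) < 1 by norm_num)] with ε hε
    exact key ε hε.1 hε.2
  rw [hF' i]
  apply ENNReal.ofReal_le_ofReal
  rw [one_div, mul_inv, ← one_div (vol (x i)), ← hv, inv_mul_le_iff₀ hn]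
  exact hlim

lemma indicator_bound {α : Type*} (S : Finset α) (U : α → Set (Fin d → ℝ)) (w : ℝ≥0∞)
    (y : Fin d → ℝ) [DecidableEq α] :
    ∑ i ∈ S, (U i).indicator (fun _ => w) y ≤
      w + ∑ i ∈ S, ∑ j ∈ S.erase i, (U i ∩ U j).indicator (fun _ => w) y := by
  by_cases h : ∃ i ∈ S, y ∈ U i
  · obtain ⟨k, hk, hyk⟩ := h
    rw [← Finset.add_sum_erase S _ hk]
    refine add_le_add ?_ ?_
    · rw [Set.indicator_of_mem hyk]
    · calc ∑ i ∈ S.erase k, (U i).indicator (fun _ => w) y
          ≤ ∑ i ∈ S.erase k, ∑ j ∈ S.erase i, (U i ∩ U j).indicator (fun _ => w) y := by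
            refine Finset.sum_le_sum fun i hi => ?_
            have hki : k ∈ S.erase i := Finset.mem_erase.2
              ⟨(Finset.ne_of_mem_erase hi).symm, hk⟩
            refine le_trans (le_of_eq ?_) (Finset.single_le_sum (f := fun j =>
              (U i ∩ U j).indicator (fun _ => w) y) (fun _ _ => zero_le) hki)
            by_cases hyi : y ∈ U i
            · rw [Set.indicator_of_mem hyi, Set.indicator_of_mem (Set.mem_inter hyi hyk)]
            · rw [Set.indicator_of_notMem hyi, Set.indicator_of_notMem fun h => hyi h.1]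
        _ ≤ _ := Finset.sum_le_sum_of_subset (Finset.erase_subset _ _)
  · push Not at h
    rw [Finset.sum_eq_zero fun i hi => Set.indicator_of_notMem (h i hi) _]
    exact zero_le

/-- The sets `{y ≥ x i}` overlap little. -/
lemma sum_dens_le (S : Finset (Fin n)) : ∑ i ∈ S, dens G (x i) ≤
    atOrigin G + ∑ i ∈ S, ∑ j ∈ S.erase i, dens G (fun l => max (x i l) (x j l)) := by
  have h1 : ∀ z : Fin d → ℝ, dens G z = ∫⁻ y, ({y | ∀ l, z l ≤ y l} : Set (Fin d → ℝ)).indicator
      (fun _ => ENNReal.ofReal (1 / vol y)) y ∂G := by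
    intro z
    unfold dens
    rw [← lintegral_indicator (measurableSet_up z)]
    rfl
  have h2 : ∀ z : Fin d → ℝ, Measurable fun y => ({y | ∀ l, z l ≤ y l} :
      Set (Fin d → ℝ)).indicator (fun _ => ENNReal.ofReal (1 / vol y)) y := by
    intro z
    have : (fun y => ({y | ∀ l, z l ≤ y l} : Set (Fin d → ℝ)).indicator
        (fun _ => ENNReal.ofReal (1 / vol y)) y) = ({y | ∀ l, z l ≤ y l} :
        Set (Fin d → ℝ)).indicator fun y => ENNReal.ofReal (1 / vol y) := by
      rfl
    rw [this]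
    exact measurable_w.indicator (measurableSet_up z)
  simp only [h1]
  unfold atOrigin
  rw [← lintegral_finsetSum _ fun i _ => h2 (x i)]
  have h3 : ∀ i, ∑ j ∈ S.erase i, ∫⁻ y, ({y | ∀ l, max (x i l) (x j l) ≤ y l} :
      Set (Fin d → ℝ)).indicator (fun _ => ENNReal.ofReal (1 / vol y)) y ∂G =
      ∫⁻ y, ∑ j ∈ S.erase i, ({y | ∀ l, max (x i l) (x j l) ≤ y l} :
      Set (Fin d → ℝ)).indicator (fun _ => ENNReal.ofReal (1 / vol y)) y ∂G := by
    intro i
    rw [lintegral_finsetSum _ fun j _ => h2 (fun l => max (x i l) (x j l))]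
  simp only [h3]
  rw [← lintegral_finsetSum _ fun i _ => Finset.measurable_sum _ fun j _ =>
    h2 (fun l => max (x i l) (x j l)), ← lintegral_add_left measurable_w]
  refine lintegral_mono fun y => ?_
  have h4 := indicator_bound S (fun i => ({y | ∀ l, x i l ≤ y l} : Set (Fin d → ℝ)))
    (ENNReal.ofReal (1 / vol y)) y
  refine h4.trans (add_le_add le_rfl (le_of_eq ?_))
  refine Finset.sum_congr rfl fun i _ => Finset.sum_congr rfl fun j _ => ?_
  have h5 : ({y | ∀ l, x i l ≤ y l} ∩ {y | ∀ l, x j l ≤ y l} : Set (Fin d → ℝ)) =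
      {y | ∀ l, max (x i l) (x j l) ≤ y l} := by
    ext y
    simp only [Set.mem_inter_iff, Set.mem_ofPred_eq, max_le_iff, forall_and]
  rw [h5]

/-- The deterministic lower bound for the value at the origin. -/
lemma atOrigin_ge (hG : IsMLE x G) (hx : ∀ i l, 0 < x i l) (S : Finset (Fin n))
    (hS : ∀ i ∈ S, ∀ j ∈ S, i ≠ j → (n : ℝ) ^ 2 ≤ vol (fun l => max (x i l) (x j l))) :
    ENNReal.ofReal ((∑ i ∈ S, 1 / vol (x i)) / n) ≤ atOrigin G + 1 := by
  have h1 : ENNReal.ofReal ((∑ i ∈ S, 1 / vol (x i)) / n) ≤ ∑ i ∈ S, dens G (x i) := by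
    rw [Finset.sum_div, ENNReal.ofReal_sum_of_nonneg fun i _ =>
      div_nonneg (one_div_pos.2 (vol_pos (hx i))).le (Nat.cast_nonneg n)]
    refine Finset.sum_le_sum fun i _ => ?_
    refine le_trans (le_of_eq ?_) (dens_ge hG hx i)
    congr 1
    rw [div_div, mul_comm]
  refine h1.trans ((sum_dens_le S).trans (add_le_add le_rfl ?_))
  have h2 : ∀ i ∈ S, ∀ j ∈ S.erase i, dens G (fun l => max (x i l) (x j l)) ≤
      ENNReal.ofReal (1 / (n : ℝ) ^ 2) := by
    intro i hi j hj
    have hn : (0 : ℝ) < n := by exact_mod_cast (Fin.pos i)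
    refine (dens_le hG.1 fun l => lt_max_of_lt_left (hx i l)).trans ?_
    apply ENNReal.ofReal_le_ofReal
    exact one_div_le_one_div_of_le (by positivity)
      (hS i hi j (Finset.mem_of_mem_erase hj) (Finset.ne_of_mem_erase hj).symm)
  calc ∑ i ∈ S, ∑ j ∈ S.erase i, dens G (fun l => max (x i l) (x j l))
      ≤ ∑ i ∈ S, ∑ j ∈ S.erase i, ENNReal.ofReal (1 / (n : ℝ) ^ 2) :=
        Finset.sum_le_sum fun i hi => Finset.sum_le_sum fun j hj => h2 i hi j hj
    _ ≤ ∑ _i : Fin n, ∑ _j : Fin n, ENNReal.ofReal (1 / (n : ℝ) ^ 2) := by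
        refine (Finset.sum_le_sum fun i _ => Finset.sum_le_sum_of_subset
          (Finset.subset_univ _)).trans (Finset.sum_le_sum_of_subset (Finset.subset_univ _))
    _ ≤ 1 := by
        rcases Nat.eq_zero_or_pos n with h0 | h0
        · subst h0
          simp
        · have hn : (0 : ℝ) < n := by exact_mod_cast h0
          simp only [Finset.sum_const, Finset.card_univ, Fintype.card_fin, nsmul_eq_mul]
          rw [← ENNReal.ofReal_natCast, ← ENNReal.ofReal_mul (by positivity),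
            ← ENNReal.ofReal_mul (by positivity)]
          rw [show (n : ℝ) * (n * (1 / (n : ℝ) ^ 2)) = 1 by field_simp]
          simp

end MLE

section Existence

variable {d n : ℕ}

/-- The grid points. -/
def gp (x : Fin n → Fin d → ℝ) (s : Fin d → Fin n) : Fin d → ℝ := fun l => x (s l) l

/-- An index in `B` with the largest coordinate `l`. -/
noncomputable def sel [NeZero n] (x : Fin n → Fin d → ℝ) (l : Fin d) (B : Finset (Fin n)) :
    Fin n :=
  if h : B.Nonempty then (B.exists_max_image (fun i => x i l) h).choose else 0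

open Classical in
/-- The indices with `x i l ≤ y l`. -/
noncomputable def pat (x : Fin n → Fin d → ℝ) (y : Fin d → ℝ) (l : Fin d) : Finset (Fin n) :=
  Finset.univ.filter fun i => x i l ≤ y l

/-- The indices of the largest grid point below `y`. -/
noncomputable def sig [NeZero n] (x : Fin n → Fin d → ℝ) (y : Fin d → ℝ) : Fin d → Fin n :=
  fun l => sel x l (pat x y l)

lemma measurableSet_pat (x : Fin n → Fin d → ℝ) (B : Fin d → Finset (Fin n)) :
    MeasurableSet {y | pat x y = B} := by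
  have h1 : {y | pat x y = B} = ⋂ l, ⋂ i, {y : Fin d → ℝ | x i l ≤ y l ↔ i ∈ B l} := by
    ext y
    simp only [Set.mem_ofPred_eq, Set.mem_iInter, funext_iff, Finset.ext_iff, pat,
      Finset.mem_filter, Finset.mem_univ, true_and]
  rw [h1]
  refine MeasurableSet.iInter fun l => MeasurableSet.iInter fun i => ?_
  have h2 : MeasurableSet {y : Fin d → ℝ | x i l ≤ y l} :=
    measurableSet_le measurable_const (measurable_pi_apply l)
  by_cases h : i ∈ B l
  · simpa [h] using h2
  · have h3 : {y : Fin d → ℝ | x i l ≤ y l ↔ i ∈ B l} = {y : Fin d → ℝ | x i l ≤ y l}ᶜ := by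
      ext y
      simp [h]
    rw [h3]
    exact h2.compl

lemma measurableSet_sig [NeZero n] (x : Fin n → Fin d → ℝ) (s : Fin d → Fin n) :
    MeasurableSet (sig x ⁻¹' {s}) := by
  classical
  have h1 : sig x ⁻¹' {s} = ⋃ B ∈ (Finset.univ : Finset (Fin d → Finset (Fin n))).filter
      (fun B => (fun l => sel x l (B l)) = s), {y | pat x y = B} := by
    ext y
    simp only [Set.mem_preimage, Set.mem_singleton_iff, Finset.mem_filter, Finset.mem_univ,
      true_and, Set.mem_iUnion, Set.mem_ofPred_eq, exists_prop]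
    constructor
    · intro h
      exact ⟨pat x y, h, rfl⟩
    · rintro ⟨B, hB, h⟩
      rw [← hB, ← h]
      rfl
  rw [h1]
  exact Finset.measurableSet_biUnion _ fun B _ => measurableSet_pat x B

lemma sig_spec [NeZero n] (x : Fin n → Fin d → ℝ) {y : Fin d → ℝ} {i : Fin n}
    (h : ∀ l, x i l ≤ y l) (l : Fin d) :
    x i l ≤ gp x (sig x y) l ∧ gp x (sig x y) l ≤ y l := by
  have h1 : i ∈ pat x y l := by simp [pat, h l]
  have h2 : (pat x y l).Nonempty := ⟨i, h1⟩
  have h3 := ((pat x y l).exists_max_image (fun i => x i l) h2).choose_spec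
  have h4 : sig x y l = ((pat x y l).exists_max_image (fun i => x i l) h2).choose := by
    unfold sig sel
    rw [dif_pos h2]
  unfold gp
  rw [h4]
  refine ⟨h3.2 i h1, ?_⟩
  exact (Finset.mem_filter.1 h3.1).2

/-- The distribution on the grid with weights `w`. -/
noncomputable def grid (x : Fin n → Fin d → ℝ) (w : (Fin d → Fin n) → ℝ) :
    Measure (Fin d → ℝ) := ∑ s, ENNReal.ofReal (w s) • Measure.dirac (gp x s)

open Classical in
/-- The coefficients of the likelihood. -/
noncomputable def coef (x : Fin n → Fin d → ℝ) (i : Fin n) (s : Fin d → Fin n) : ℝ :=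
  if ∀ l, x i l ≤ gp x s l then 1 / vol (gp x s) else 0

lemma gp_pos {x : Fin n → Fin d → ℝ} (hx : ∀ i l, 0 < x i l) (s : Fin d → Fin n) (l : Fin d) :
    0 < gp x s l := hx (s l) l

lemma coef_nonneg {x : Fin n → Fin d → ℝ} (hx : ∀ i l, 0 < x i l) (i : Fin n)
    (s : Fin d → Fin n) : 0 ≤ coef x i s := by
  unfold coef
  split_ifs
  · exact (one_div_pos.2 (vol_pos (gp_pos hx s))).le
  · exact le_rfl

lemma dens_grid {x : Fin n → Fin d → ℝ} (hx : ∀ i l, 0 < x i l) {w : (Fin d → Fin n) → ℝ}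
    (hw : ∀ s, 0 ≤ w s) (i : Fin n) :
    dens (grid x w) (x i) = ENNReal.ofReal (∑ s, w s * coef x i s) := by
  unfold grid
  rw [dens_sum, ENNReal.ofReal_sum_of_nonneg fun s _ => mul_nonneg (hw s) (coef_nonneg hx i s)]
  refine Finset.sum_congr rfl fun s _ => ?_
  rw [dens_smul, dens_dirac, ENNReal.ofReal_mul (hw s)]
  unfold coef
  split_ifs <;> simp

lemma dens_le_grid [NeZero n] {G : Measure (Fin d → ℝ)} (hG : Mixing G)
    {x : Fin n → Fin d → ℝ} (hx : ∀ i l, 0 < x i l) :
    ∃ w ∈ stdSimplex ℝ (Fin d → Fin n), ∀ i, dens G (x i) ≤ dens (grid x w) (x i) := by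
  have := hG.prob
  have hw0 : ∀ s, 0 ≤ G.real (sig x ⁻¹' {s}) := fun s => measureReal_nonneg
  refine ⟨fun s => G.real (sig x ⁻¹' {s}), ⟨hw0, ?_⟩, fun i => ?_⟩
  · have h1 := sum_measure_preimage_singleton (μ := G) (f := sig x) Finset.univ
      (fun s _ => measurableSet_sig x s)
    rw [Finset.coe_univ, Set.preimage_univ, measure_univ] at h1
    have h2 := congrArg ENNReal.toReal h1
    rw [ENNReal.toReal_sum fun s _ => measure_ne_top _ _, ENNReal.toReal_one] at h2
    exact h2
  · rw [dens_grid hx hw0]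
    rw [ENNReal.ofReal_sum_of_nonneg fun s _ => mul_nonneg (hw0 s) (coef_nonneg hx i s)]
    have h1 : ∀ s, ENNReal.ofReal (G.real (sig x ⁻¹' {s}) * coef x i s) =
        ∫⁻ y, (sig x ⁻¹' {s}).indicator (fun _ => ENNReal.ofReal (coef x i s)) y ∂G := by
      intro s
      rw [lintegral_indicator_const (measurableSet_sig x s), ENNReal.ofReal_mul (hw0 s),
        measureReal_def, ENNReal.ofReal_toReal (measure_ne_top _ _), mul_comm]
    rw [Finset.sum_congr rfl fun s _ => h1 s, ← lintegral_finsetSum _ fun s _ =>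
      measurable_const.indicator (measurableSet_sig x s)]
    unfold dens
    rw [← lintegral_indicator (measurableSet_up (x i))]
    refine lintegral_mono fun y => ?_
    by_cases hy : ∀ l, x i l ≤ y l
    · rw [Set.indicator_of_mem (show y ∈ {y | ∀ l, x i l ≤ y l} from hy)]
      refine le_trans ?_ (Finset.single_le_sum (f := fun s => (sig x ⁻¹' {s}).indicator
        (fun _ => ENNReal.ofReal (coef x i s)) y) (fun _ _ => zero_le)
        (Finset.mem_univ (sig x y)))
      dsimp only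
      rw [Set.indicator_of_mem (show y ∈ sig x ⁻¹' {sig x y} from rfl)]
      apply ENNReal.ofReal_le_ofReal
      unfold coef
      rw [if_pos fun l => (sig_spec x hy l).1]
      exact one_div_le_one_div_of_le (vol_pos (gp_pos hx _))
        (vol_mono (gp_pos hx _) fun l => (sig_spec x hy l).2)
    · rw [Set.indicator_of_notMem (show y ∉ {y | ∀ l, x i l ≤ y l} from hy)]
      exact zero_le

/-- Existence of the MLE. -/
lemma exists_isMLE [NeZero n] {x : Fin n → Fin d → ℝ} (hx : ∀ i l, 0 < x i l) :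
    ∃ G, IsMLE x G := by
  have hne : (stdSimplex ℝ (Fin d → Fin n)).Nonempty := ⟨_, single_mem_stdSimplex ℝ (fun _ => 0)⟩
  obtain ⟨w, hw, hmax⟩ := (isCompact_stdSimplex ℝ (Fin d → Fin n)).exists_isMaxOn hne
    (f := fun w => ∏ i, ∑ s, w s * coef x i s) (by fun_prop)
  refine ⟨grid x w, Mixing.sum hw.1 hw.2 fun s => mixing_dirac (gp_pos hx s), fun G' hG' => ?_⟩
  obtain ⟨w', hw', hle⟩ := dens_le_grid hG' hx
  refine (Finset.prod_le_prod' fun i _ => hle i).trans ?_
  rw [Finset.prod_congr rfl fun i _ => dens_grid hx hw'.1 i,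
    Finset.prod_congr rfl fun i _ => dens_grid hx hw.1 i,
    ← ENNReal.ofReal_prod_of_nonneg fun i _ => Finset.sum_nonneg fun s _ =>
      mul_nonneg (hw'.1 s) (coef_nonneg hx i s),
    ← ENNReal.ofReal_prod_of_nonneg fun i _ => Finset.sum_nonneg fun s _ =>
      mul_nonneg (hw.1 s) (coef_nonneg hx i s)]
  exact ENNReal.ofReal_le_ofReal (hmax hw')

end Existence

section Label

/-- The tail of the label. -/
noncomputable def tt (c : ℕ) : ℝ := 1 / √(1 + Real.log (1 + c))

/-- The probability of the label `c`. -/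
noncomputable def pp (c : ℕ) : ℝ := tt c - tt (c + 1)

lemma one_le_arg (c : ℕ) : 1 ≤ 1 + Real.log (1 + (c : ℝ)) := by
  have := Real.log_nonneg (show (1 : ℝ) ≤ 1 + c by linarith [Nat.cast_nonneg (α := ℝ) c])
  linarith

lemma tt_pos (c : ℕ) : 0 < tt c := by
  unfold tt
  have := one_le_arg c
  positivity

lemma tt_zero : tt 0 = 1 := by
  unfold tt
  simp

lemma pp_bounds (c : ℕ) : 0 ≤ pp c ∧ pp c ≤ 1 / ((c : ℝ) + 1) := by
  set A := 1 + Real.log (1 + (c : ℝ)) with hA
  set B := 1 + Real.log (1 + ((c + 1 : ℕ) : ℝ)) with hB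
  have hc : (0 : ℝ) ≤ c := Nat.cast_nonneg c
  have hA1 : 1 ≤ A := one_le_arg c
  have hAB : A ≤ B := by
    have := Real.log_le_log (show (0 : ℝ) < 1 + c by positivity)
      (show (1 : ℝ) + c ≤ 1 + ((c + 1 : ℕ) : ℝ) by push_cast; linarith)
    linarith
  have hBA : B - A ≤ 1 / ((c : ℝ) + 1) := by
    have h1 : B - A = Real.log ((2 + (c : ℝ)) / (1 + c)) := by
      rw [Real.log_div (by positivity) (by positivity), hA, hB]
      push_cast
      ring_nf
    rw [h1]
    refine (Real.log_le_sub_one_of_pos (by positivity)).trans (le_of_eq ?_)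
    field_simp
    ring
  set a := √A with ha
  set b := √B with hb
  have ha1 : 1 ≤ a := Real.one_le_sqrt.2 hA1
  have hab : a ≤ b := Real.sqrt_le_sqrt hAB
  have haa : a * a = A := Real.mul_self_sqrt (by linarith)
  have hbb : b * b = B := Real.mul_self_sqrt (by linarith)
  have h1 : pp c = (b - a) / (a * b) := by
    have ha0 : a ≠ 0 := (by linarith : 0 < a).ne'
    have hb0 : b ≠ 0 := (by linarith : 0 < b).ne'
    unfold pp tt
    rw [← hA, ← hB, ← ha, ← hb, div_sub_div _ _ ha0 hb0]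
    ring
  have hb1 : 1 ≤ b := ha1.trans hab
  refine ⟨?_, ?_⟩
  · rw [h1]
    exact div_nonneg (by linarith) (by positivity)
  · rw [h1]
    refine le_trans ?_ hBA
    rw [div_le_iff₀ (by positivity)]
    have h2 : B - A = (b - a) * (b + a) := by rw [← haa, ← hbb]; ring
    rw [h2]
    have h3 : 1 ≤ (b + a) * (a * b) := by nlinarith [mul_le_mul ha1 hb1 (by norm_num) (by linarith)]
    nlinarith

lemma sum_pp (m : ℕ) : ∑ c ∈ Finset.range m, pp c = 1 - tt m := by
  unfold pp
  rw [Finset.sum_range_sub' tt m, tt_zero]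

lemma tendsto_tt : Tendsto tt atTop (𝓝 0) := by
  unfold tt
  refine tendsto_const_nhds.div_atTop ?_
  refine Real.tendsto_sqrt_atTop.comp ?_
  refine tendsto_atTop_add_const_left _ _ ?_
  refine Real.tendsto_log_atTop.comp ?_
  exact tendsto_atTop_add_const_left _ _ tendsto_natCast_atTop_atTop

lemma hasSum_pp : HasSum pp 1 := by
  rw [hasSum_iff_tendsto_nat_of_nonneg fun c => (pp_bounds c).1]
  have h1 : Tendsto (fun m => 1 - tt m) atTop (𝓝 (1 - 0)) := tendsto_const_nhds.sub tendsto_tt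
  rw [sub_zero] at h1
  exact h1.congr fun m => (sum_pp m).symm

/-- The law of the label. -/
noncomputable def lab : Measure ℕ := Measure.sum fun c : ℕ => ENNReal.ofReal (pp c) • Measure.dirac c

lemma lab_singleton (c : ℕ) : lab {c} = ENNReal.ofReal (pp c) := by
  unfold lab
  rw [Measure.sum_apply _ (measurableSet_singleton c), tsum_eq_single c]
  · simp
  · intro c' hc'
    simp [hc']

instance : IsProbabilityMeasure lab := by
  constructor
  unfold lab
  rw [Measure.sum_apply _ MeasurableSet.univ]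
  simp only [Measure.smul_apply, measure_univ, smul_eq_mul, mul_one]
  rw [← ENNReal.ofReal_tsum_of_nonneg (fun c => (pp_bounds c).1) hasSum_pp.summable,
    hasSum_pp.tsum_eq, ENNReal.ofReal_one]

lemma lab_Ici (N : ℕ) : lab.real (Set.Ici N) = tt N := by
  have h1 : lab.real (Set.Iio N) = 1 - tt N := by
    have h2 : (Set.Iio N : Set ℕ) = ↑(Finset.range N) := by
      ext c; simp
    rw [h2, measureReal_def, ← sum_measure_singleton, ENNReal.toReal_sum fun c _ => measure_ne_top _ _]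
    rw [← sum_pp]
    refine Finset.sum_congr rfl fun c _ => ?_
    rw [lab_singleton, ENNReal.toReal_ofReal (pp_bounds c).1]
  have h3 : (Set.Ici N : Set ℕ) = (Set.Iio N)ᶜ := by
    ext c; simp
  rw [h3, probReal_compl_eq_one_sub (MeasurableSet.of_discrete), h1]
  ring

end Label

section Points

variable {d : ℕ}

/-- The exponents of the points. -/
noncomputable def ev (a b : ℝ) (l : Fin d) : ℝ :=
  if (l : ℕ) = 0 then -a else if (l : ℕ) = 1 then b else 0

lemma sum_ev (hd : 2 ≤ d) (a b : ℝ) : ∑ l : Fin d, ev a b l = b - a := by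
  obtain ⟨m, rfl⟩ := Nat.exists_eq_add_of_le hd
  rw [show 2 + m = m + 1 + 1 by ring, Fin.sum_univ_succ, Fin.sum_univ_succ]
  have h1 : ∀ i : Fin m, ev a b (i.succ.succ) = 0 := by
    intro i
    simp [ev]
  simp only [h1, Finset.sum_const_zero, add_zero]
  simp [ev]
  ring

/-- The support points of `G₀`. -/
noncomputable def yv (c : ℕ) (l : Fin d) : ℝ := Real.exp (ev ((c : ℝ) ^ 2) ((c : ℝ) ^ 2) l)

lemma yv_pos (c : ℕ) (l : Fin d) : 0 < yv c l := Real.exp_pos _

lemma vol_yv (hd : 2 ≤ d) (c : ℕ) : vol (yv c : Fin d → ℝ) = 1 := by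
  unfold vol yv
  rw [← Real.exp_sum, sum_ev hd, sub_self, Real.exp_zero]

/-- The mixing distribution of the counterexample. -/
noncomputable def G0 (d : ℕ) : Measure (Fin d → ℝ) := lab.map yv

lemma measurable_yv : Measurable (yv : ℕ → Fin d → ℝ) := Measurable.of_discrete

lemma mixing_G0 : Mixing (G0 d) where
  prob := Measure.isProbabilityMeasure_map measurable_yv.aemeasurable
  pos := by
    unfold G0
    rw [ae_map_iff measurable_yv.aemeasurable]
    · exact Filter.Eventually.of_forall fun c l => yv_pos c l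
    · have : {y : Fin d → ℝ | ∀ l, 0 < y l} = ⋂ l, {y | 0 < y l} := by
        ext y; simp
      rw [this]
      exact MeasurableSet.iInter fun l => measurableSet_lt measurable_const (measurable_pi_apply l)

lemma atOrigin_G0 (hd : 2 ≤ d) : atOrigin (G0 d) = 1 := by
  unfold atOrigin G0
  rw [lintegral_map measurable_w measurable_yv]
  simp [vol_yv hd]

lemma dens_G0 (hd : 2 ≤ d) (x : Fin d → ℝ) : dens (G0 d) x = lab {c | ∀ l, x l ≤ yv c l} := by
  unfold dens G0
  rw [setLIntegral_map (measurableSet_up x) measurable_w measurable_yv]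
  simp only [vol_yv hd, div_one, ENNReal.ofReal_one]
  rw [setLIntegral_one]
  rfl

/-- The uniform law on `(0, 1]^d`. -/
noncomputable def unif (d : ℕ) : Measure (Fin d → ℝ) :=
  Measure.pi fun _ : Fin d => volume.restrict (Set.Ioc (0 : ℝ) 1)

instance : IsProbabilityMeasure (volume.restrict (Set.Ioc (0 : ℝ) 1)) := ⟨by simp⟩

instance : IsProbabilityMeasure (unif d) := by unfold unif; infer_instance

/-- The law of the latent variables. -/
noncomputable def Lat (d : ℕ) : Measure ((Fin d → ℝ) × ℕ) := (unif d).prod lab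

instance : IsProbabilityMeasure (Lat d) := by unfold Lat; infer_instance

/-- An observation as a function of the latent variables. -/
noncomputable def X (p : (Fin d → ℝ) × ℕ) : Fin d → ℝ := fun l => yv p.2 l * p.1 l

lemma measurable_X : Measurable (X : (Fin d → ℝ) × ℕ → Fin d → ℝ) := by
  refine measurable_pi_lambda _ fun l => ?_
  exact ((measurable_pi_apply l).comp (measurable_yv.comp measurable_snd)).mul
    ((measurable_pi_apply l).comp measurable_fst)

lemma unif_eq : unif d = volume.restrict (Set.univ.pi fun _ : Fin d => Set.Ioc (0 : ℝ) 1) := by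
  unfold unif
  rw [volume_pi, Measure.restrict_pi_pi]

lemma map_scale (hd : 2 ≤ d) (c : ℕ) :
    Measure.map (fun (u : Fin d → ℝ) l => yv c l * u l) volume = volume := by
  have h1 : (Matrix.diagonal (yv c : Fin d → ℝ)).det = 1 := by
    rw [Matrix.det_diagonal]
    exact vol_yv hd c
  have h2 := Real.smul_map_diagonal_volume_pi (D := (yv c : Fin d → ℝ)) (by rw [h1]; norm_num)
  rw [h1, abs_one, ENNReal.ofReal_one, one_smul] at h2
  have h3 : (fun (u : Fin d → ℝ) l => yv c l * u l) =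
      ⇑(Matrix.toLin' (Matrix.diagonal (yv c : Fin d → ℝ))) := by
    funext u l
    rw [Matrix.toLin'_apply, Matrix.mulVec_diagonal]
  rw [h3]
  exact h2

lemma law_G0 (hd : 2 ≤ d) : law (G0 d) = (Lat d).map X := by
  have hpos : MeasurableSet {x : Fin d → ℝ | ∀ l, 0 < x l} := by
    have : {y : Fin d → ℝ | ∀ l, 0 < y l} = ⋂ l, {y | 0 < y l} := by
      ext y; simp
    rw [this]
    exact MeasurableSet.iInter fun l => measurableSet_lt measurable_const (measurable_pi_apply l)
  have hM : MeasurableSet {p : (Fin d → ℝ) × ℕ | ∀ l, p.1 l ≤ yv p.2 l} := by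
    have : {p : (Fin d → ℝ) × ℕ | ∀ l, p.1 l ≤ yv p.2 l} = ⋂ l, {p | p.1 l ≤ yv p.2 l} := by
      ext y; simp
    rw [this]
    exact MeasurableSet.iInter fun l => measurableSet_le
      ((measurable_pi_apply l).comp measurable_fst)
      ((measurable_pi_apply l).comp (measurable_yv.comp measurable_snd))
  ext A hA
  unfold law
  rw [withDensity_apply _ hA]
  have h1 : (fun x : Fin d → ℝ => dens (G0 d) x) = fun x => lab (Prod.mk x ⁻¹'
      {p : (Fin d → ℝ) × ℕ | ∀ l, p.1 l ≤ yv p.2 l}) := by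
    funext x
    rw [dens_G0 hd]
    rfl
  have h1' : ∫⁻ x in A, dens (G0 d) x ∂(volume.restrict {x | ∀ l, 0 < x l}) =
      ∫⁻ x in A, lab (Prod.mk x ⁻¹' {p : (Fin d → ℝ) × ℕ | ∀ l, p.1 l ≤ yv p.2 l})
        ∂(volume.restrict {x | ∀ l, 0 < x l}) := by
    rw [← h1]
  rw [h1', ← Measure.prod_apply hM, Measure.prod_apply_symm hM,
    Measure.map_apply measurable_X hA]
  unfold Lat
  rw [Measure.prod_apply_symm (measurable_X hA)]
  refine lintegral_congr fun c => ?_
  rw [unif_eq, Measure.restrict_apply, Measure.restrict_apply, Measure.restrict_apply]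
  rotate_left
  · exact measurable_X.comp measurable_prodMk_right hA
  · exact (measurable_prodMk_right hM).inter hA
  · exact measurable_prodMk_right hM
  set D : (Fin d → ℝ) → (Fin d → ℝ) := fun u l => yv c l * u l with hD
  have hDm : Measurable D := by
    refine measurable_pi_lambda _ fun l => ?_
    exact measurable_const.mul (measurable_pi_apply l)
  set Q : Set (Fin d → ℝ) := (fun x => (x, c)) ⁻¹' {p : (Fin d → ℝ) × ℕ | ∀ l, p.1 l ≤ yv p.2 l} ∩
    A ∩ {x | ∀ l, 0 < x l} with hQ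
  have hQm : MeasurableSet Q := ((measurable_prodMk_right hM).inter hA).inter hpos
  have h2 : (fun x => (x, c)) ⁻¹' (X ⁻¹' A) ∩ Set.univ.pi (fun _ : Fin d => Set.Ioc (0 : ℝ) 1) =
      D ⁻¹' Q := by
    ext u
    simp only [hQ, hD, Set.mem_inter_iff, Set.mem_preimage, Set.mem_ofPred_eq, Set.mem_pi,
      Set.mem_univ, forall_true_left, Set.mem_Ioc]
    constructor
    · rintro ⟨h3, h4⟩
      exact ⟨⟨fun l => mul_le_of_le_one_right (yv_pos c l).le (h4 l).2, h3⟩,
        fun l => mul_pos (yv_pos c l) (h4 l).1⟩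
    · rintro ⟨⟨h3, h4⟩, h5⟩
      refine ⟨h4, fun l => ⟨pos_of_mul_pos_right (h5 l) (yv_pos c l).le, ?_⟩⟩
      have := h3 l
      exact le_of_mul_le_mul_left (by linarith) (yv_pos c l)
  rw [h2, ← Measure.map_apply hDm hQm, map_scale hd]

end Points

section Sample

variable {d : ℕ}

/-- The truncated function `1 / u`. -/
noncomputable def gg (δ s : ℝ) : ℝ := if δ ≤ s then 1 / s else 0

/-- The label indicator. -/
noncomputable def ii (N c : ℕ) : ℝ := (Set.Ici N).indicator (fun _ => (1 : ℝ)) c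

/-- The truncated `1 / |X|` on the labels `≥ N`. -/
noncomputable def T (δ : ℝ) (N : ℕ) (p : (Fin d → ℝ) × ℕ) : ℝ := (∏ l, gg δ (p.1 l)) * ii N p.2

lemma measurable_gg (δ : ℝ) : Measurable (gg δ) :=
  Measurable.ite (measurableSet_le measurable_const measurable_id)
    (measurable_const.div measurable_id) measurable_const

lemma measurable_T (δ : ℝ) (N : ℕ) : Measurable (T δ N : (Fin d → ℝ) × ℕ → ℝ) := by
  unfold T
  refine Measurable.mul ?_ (Measurable.of_discrete.comp measurable_snd)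
  refine Finset.measurable_prod _ fun l _ => ?_
  exact (measurable_gg δ).comp ((measurable_pi_apply l).comp measurable_fst)

lemma gg_bounds {δ : ℝ} (hδ : 0 < δ) (s : ℝ) : 0 ≤ gg δ s ∧ gg δ s ≤ 1 / δ := by
  unfold gg
  split_ifs with h
  · exact ⟨(one_div_pos.2 (hδ.trans_le h)).le, one_div_le_one_div_of_le hδ h⟩
  · exact ⟨le_rfl, by positivity⟩

lemma ii_bounds (N c : ℕ) : 0 ≤ ii N c ∧ ii N c ≤ 1 := by
  unfold ii Set.indicator
  split_ifs <;> simp

lemma T_nonneg {δ : ℝ} (hδ : 0 < δ) (N : ℕ) (p : (Fin d → ℝ) × ℕ) : 0 ≤ T δ N p :=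
  mul_nonneg (Finset.prod_nonneg fun l _ => (gg_bounds hδ _).1) (ii_bounds N _).1

lemma T_le {δ : ℝ} (hδ : 0 < δ) (N : ℕ) (p : (Fin d → ℝ) × ℕ) : T δ N p ≤ (1 / δ) ^ d := by
  unfold T
  refine (mul_le_of_le_one_right (Finset.prod_nonneg fun l _ => (gg_bounds hδ _).1)
    (ii_bounds N _).2).trans ?_
  refine (Finset.prod_le_prod (fun _ _ => (gg_bounds hδ _).1)
    fun l _ => (gg_bounds hδ (p.1 l)).2).trans (le_of_eq ?_)
  simp

lemma integral_gg {δ : ℝ} (hδ : 0 < δ) (hδ1 : δ ≤ 1) :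
    ∫ s in Set.Ioc (0 : ℝ) 1, gg δ s = Real.log (1 / δ) := by
  have h1 : ∀ s, gg δ s = (Set.Ici δ).indicator (fun s => 1 / s) s := by
    intro s
    unfold gg Set.indicator
    rfl
  simp only [h1]
  rw [setIntegral_indicator measurableSet_Ici]
  have h2 : Set.Ioc (0 : ℝ) 1 ∩ Set.Ici δ = Set.Icc δ 1 := by
    ext s
    simp only [Set.mem_inter_iff, Set.mem_Ioc, Set.mem_Ici, Set.mem_Icc]
    constructor
    · rintro ⟨⟨_, h4⟩, h5⟩
      exact ⟨h5, h4⟩
    · rintro ⟨h3, h4⟩
      exact ⟨⟨hδ.trans_le h3, h4⟩, h3⟩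
  rw [h2, integral_Icc_eq_integral_Ioc, ← intervalIntegral.integral_of_le hδ1,
    integral_one_div_of_pos hδ one_pos]

lemma integral_T {δ : ℝ} (hδ : 0 < δ) (hδ1 : δ ≤ 1) (N : ℕ) :
    ∫ p, T δ N p ∂(Lat d) = (Real.log (1 / δ)) ^ d * tt N := by
  unfold T Lat
  rw [integral_prod_mul (fun u : Fin d → ℝ => ∏ l, gg δ (u l)) (fun c => ii N c)]
  congr 1
  · unfold unif
    rw [integral_fintype_prod_eq_prod (fun _ : Fin d => gg δ)]
    simp [integral_gg hδ hδ1]
  · unfold ii
    rw [integral_indicator_const _ MeasurableSet.of_discrete, lab_Ici]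
    simp

/-- The law of `n` latent variables. -/
noncomputable def LatN (d n : ℕ) : Measure (Fin n → (Fin d → ℝ) × ℕ) :=
  Measure.pi fun _ : Fin n => Lat d

instance (n : ℕ) : IsProbabilityMeasure (LatN d n) := by unfold LatN; infer_instance

lemma indep_eval (n : ℕ) {β : Type*} [MeasurableSpace β] {f : (Fin d → ℝ) × ℕ → β}
    (hf : Measurable f) : iIndepFun (fun (i : Fin n) ω => f (ω i)) (LatN d n) :=
  iIndepFun_pi (X := fun _ : Fin n => f) fun _ => hf.aemeasurable

lemma map_eval (n : ℕ) (i : Fin n) : (LatN d n).map (fun ω => ω i) = Lat d :=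
  (measurePreserving_eval (fun _ : Fin n => Lat d) i).map_eq

/-- No two observations share a large label. -/
lemma collision (n N : ℕ) : LatN d n {ω | ∃ i j, i ≠ j ∧ (ω i).2 = (ω j).2 ∧ N ≤ (ω i).2} ≤
    ENNReal.ofReal ((n : ℝ) ^ 2 / ((N : ℝ) + 1)) := by
  have h1 : {ω : Fin n → (Fin d → ℝ) × ℕ | ∃ i j, i ≠ j ∧ (ω i).2 = (ω j).2 ∧ N ≤ (ω i).2} ⊆
      ⋃ i : Fin n, ⋃ j ∈ (Finset.univ.erase i), ⋃ c : ℕ, {ω | (ω i).2 = c + N ∧
        (ω j).2 = c + N} := by
    rintro ω ⟨i, j, hij, h2, h3⟩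
    simp only [Set.mem_iUnion, Finset.mem_erase, Finset.mem_univ, and_true, Set.mem_ofPred_eq]
    exact ⟨i, j, hij.symm, (ω i).2 - N, by omega, by omega⟩
  have h2 : ∀ i j : Fin n, i ≠ j → LatN d n (⋃ c : ℕ, {ω | (ω i).2 = c + N ∧
        (ω j).2 = c + N}) ≤ ENNReal.ofReal (1 / ((N : ℝ) + 1)) := by
    intro i j hij
    refine (measure_iUnion_le _).trans ?_
    have h3 : ∀ c : ℕ, LatN d n {ω | (ω i).2 = c + N ∧ (ω j).2 = c + N} ≤
        ENNReal.ofReal (1 / ((N : ℝ) + 1) * pp (c + N)) := by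
      intro c
      have h4 := (indep_eval (d := d) n (measurable_snd (α := Fin d → ℝ) (β := ℕ))).indepFun hij
      have h5 := h4.measure_inter_preimage_eq_mul {c + N} {c + N} (measurableSet_singleton _)
        (measurableSet_singleton _)
      have h6 : ∀ k : Fin n, LatN d n ((fun ω => (ω k).2) ⁻¹' {c + N}) =
          ENNReal.ofReal (pp (c + N)) := by
        intro k
        have h7 : (fun ω : Fin n → (Fin d → ℝ) × ℕ => (ω k).2) ⁻¹' {c + N} =
            (fun ω => ω k) ⁻¹' (Prod.snd ⁻¹' {c + N}) := rfl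
        rw [h7, ← Measure.map_apply (measurable_pi_apply k)
          (measurable_snd (measurableSet_singleton _)), map_eval]
        unfold Lat
        rw [← Set.univ_prod, Measure.prod_prod, measure_univ, one_mul, lab_singleton]
      rw [h6, h6, ← ENNReal.ofReal_mul (pp_bounds _).1] at h5
      have h8 : {ω : Fin n → (Fin d → ℝ) × ℕ | (ω i).2 = c + N ∧ (ω j).2 = c + N} =
          (fun ω => (ω i).2) ⁻¹' {c + N} ∩ (fun ω => (ω j).2) ⁻¹' {c + N} := rfl
      rw [h8, h5]
      apply ENNReal.ofReal_le_ofReal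
      refine mul_le_mul_of_nonneg_right ?_ (pp_bounds _).1
      refine (pp_bounds (c + N)).2.trans ?_
      refine one_div_le_one_div_of_le (by positivity) ?_
      push_cast
      linarith [Nat.cast_nonneg (α := ℝ) c]
    refine (ENNReal.tsum_le_tsum h3).trans ?_
    have h9 : Summable fun c => pp (c + N) := (summable_nat_add_iff N).2 hasSum_pp.summable
    rw [← ENNReal.ofReal_tsum_of_nonneg (fun c => mul_nonneg (by positivity) (pp_bounds _).1)
      (h9.mul_left _), tsum_mul_left]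
    apply ENNReal.ofReal_le_ofReal
    refine mul_le_of_le_one_right (by positivity) ?_
    have h10 := hasSum_pp.summable.sum_add_tsum_nat_add N
    rw [hasSum_pp.tsum_eq, sum_pp] at h10
    have h11 : tt N ≤ 1 := by
      have := sum_pp N
      have h12 : 0 ≤ ∑ c ∈ Finset.range N, pp c := Finset.sum_nonneg fun c _ => (pp_bounds c).1
      linarith
    linarith
  refine (measure_mono h1).trans ((measure_iUnion_le _).trans ?_)
  rw [tsum_fintype]
  calc ∑ i : Fin n, LatN d n (⋃ j ∈ (Finset.univ.erase i), ⋃ c : ℕ, {ω | (ω i).2 = c + N ∧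
        (ω j).2 = c + N})
      ≤ ∑ i : Fin n, ∑ j ∈ Finset.univ.erase i, ENNReal.ofReal (1 / ((N : ℝ) + 1)) := by
        refine Finset.sum_le_sum fun i _ => ?_
        refine (measure_biUnion_finset_le _ _).trans (Finset.sum_le_sum fun j hj => ?_)
        exact h2 i j (Finset.ne_of_mem_erase hj).symm
    _ ≤ ∑ i : Fin n, ∑ j : Fin n, ENNReal.ofReal (1 / ((N : ℝ) + 1)) :=
        Finset.sum_le_sum fun i _ => Finset.sum_le_sum_of_subset (Finset.subset_univ _)
    _ = ENNReal.ofReal ((n : ℝ) ^ 2 / ((N : ℝ) + 1)) := by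
        simp only [Finset.sum_const, Finset.card_univ, Fintype.card_fin, nsmul_eq_mul]
        rw [← ENNReal.ofReal_natCast, ← ENNReal.ofReal_mul (by positivity),
          ← ENNReal.ofReal_mul (by positivity)]
        congr 1
        ring

/-- Chebyshev. -/
lemma chebyshev {δ : ℝ} (hδ : 0 < δ) (n N : ℕ) (hn : 0 < n) {m : ℝ} (hm : 0 < m)
    (hmT : ∫ p, T δ N p ∂(Lat d) = m) :
    LatN d n {ω | ∑ i, T δ N (ω i) < n * m / 2} ≤
      ENNReal.ofReal (4 * ((1 / δ) ^ d) ^ 2 / (n * m ^ 2)) := by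
  have hn' : (0 : ℝ) < n := by exact_mod_cast hn
  set B := (1 / δ) ^ d with hB
  have hB0 : 0 ≤ B := by positivity
  have hTm : ∀ i : Fin n, Measurable fun ω : Fin n → (Fin d → ℝ) × ℕ => T δ N (ω i) :=
    fun i => (measurable_T δ N).comp (measurable_pi_apply i)
  have hb : ∀ (i : Fin n) (ω : Fin n → (Fin d → ℝ) × ℕ), ‖T δ N (ω i)‖ ≤ B := by
    intro i ω
    rw [Real.norm_of_nonneg (T_nonneg hδ N _)]
    exact T_le hδ N _
  have hLp : ∀ i : Fin n, MemLp (fun ω => T δ N (ω i)) 2 (LatN d n) := fun i =>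
    MemLp.of_bound (hTm i).aestronglyMeasurable B (Filter.Eventually.of_forall (hb i))
  set Z : (Fin n → (Fin d → ℝ) × ℕ) → ℝ := ∑ i, fun ω => T δ N (ω i) with hZ
  have hZLp : MemLp Z 2 (LatN d n) := memLp_finsetSum' _ fun i _ => hLp i
  have hint : ∀ i : Fin n, ∫ ω, T δ N (ω i) ∂(LatN d n) = m := by
    intro i
    rw [← hmT, ← map_eval n i, integral_map (measurable_pi_apply i).aemeasurable
      (measurable_T δ N).aestronglyMeasurable]
  have hEZ : ∫ ω, Z ω ∂(LatN d n) = n * m := by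
    simp only [hZ, Finset.sum_apply]
    rw [integral_finsetSum _ fun i _ => (hLp i).integrable (by norm_num)]
    simp [hint]
  have hvar : variance Z (LatN d n) ≤ n * B ^ 2 := by
    rw [hZ, IndepFun.variance_sum (fun i _ => hLp i) fun i _ j _ hij =>
      (indep_eval n (measurable_T δ N)).indepFun hij]
    calc ∑ i : Fin n, variance (fun ω => T δ N (ω i)) (LatN d n)
        ≤ ∑ _i : Fin n, B ^ 2 := by
          refine Finset.sum_le_sum fun i _ => ?_
          refine (variance_le_expectation_sq (hTm i).aestronglyMeasurable).trans ?_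
          have h1 : ∫ ω, B ^ 2 ∂(LatN d n) = B ^ 2 := by simp
          rw [← h1]
          refine integral_mono_of_nonneg (Filter.Eventually.of_forall fun ω => sq_nonneg _)
            (integrable_const _) (Filter.Eventually.of_forall fun ω => ?_)
          have h2 := hb i ω
          rw [Real.norm_of_nonneg (T_nonneg hδ N _)] at h2
          exact pow_le_pow_left₀ (T_nonneg hδ N _) h2 2
      _ = n * B ^ 2 := by simp
  have hcheb := meas_ge_le_variance_div_sq hZLp (c := n * m / 2) (by positivity)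
  refine (measure_mono fun ω hω => ?_).trans (hcheb.trans (ENNReal.ofReal_le_ofReal ?_))
  · have h1 : Z ω < n * m / 2 := by
      simpa [hZ] using hω
    have h2 : (LatN d n)[Z] = n * m := hEZ
    change n * m / 2 ≤ |Z ω - (LatN d n)[Z]|
    rw [h2, abs_sub_comm]
    refine le_trans ?_ (le_abs_self _)
    linarith
  · calc variance Z (LatN d n) / (n * m / 2) ^ 2 ≤ n * B ^ 2 / (n * m / 2) ^ 2 := by gcongr
      _ = 4 * B ^ 2 / (n * m ^ 2) := by
          field_simp
          ring

end Sample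

section Final

variable {d : ℕ}

lemma vol_X (hd : 2 ≤ d) (p : (Fin d → ℝ) × ℕ) : vol (X p) = vol p.1 := by
  have h1 : vol (X p) = vol (yv p.2 : Fin d → ℝ) * vol p.1 := by
    unfold vol X
    rw [Finset.prod_mul_distrib]
  rw [h1, vol_yv hd, one_mul]

lemma vol_join (hd : 2 ≤ d) {δ : ℝ} (hδ : 0 < δ) {N c c' : ℕ} (hN : N ≤ c) (hcc' : c < c')
    {u u' : Fin d → ℝ} (hu : ∀ l, δ ≤ u l) (hu' : ∀ l, δ ≤ u' l) :
    δ ^ d * Real.exp N ≤ vol (fun l => max (X (u, c) l) (X (u', c') l)) := by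
  set z : Fin d → ℝ := fun l => δ * Real.exp (ev ((c : ℝ) ^ 2) ((c' : ℝ) ^ 2) l) with hz
  have h1 : vol z = δ ^ d * Real.exp ((c' : ℝ) ^ 2 - (c : ℝ) ^ 2) := by
    unfold vol
    rw [hz, Finset.prod_mul_distrib, ← Real.exp_sum, sum_ev hd]
    simp
  have h2 : (N : ℝ) ≤ (c' : ℝ) ^ 2 - (c : ℝ) ^ 2 := by
    have h3 : (N : ℝ) ≤ c := by exact_mod_cast hN
    have h4 : (c : ℝ) + 1 ≤ c' := by exact_mod_cast hcc'
    have h5 : (0 : ℝ) ≤ N := Nat.cast_nonneg N
    nlinarith
  have h3 : ∀ l, z l ≤ max (X (u, c) l) (X (u', c') l) := by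
    intro l
    by_cases h0 : (l : ℕ) = 0
    · refine le_max_of_le_left ?_
      simp only [hz, X, yv, ev, h0, if_true]
      rw [mul_comm]
      exact mul_le_mul_of_nonneg_left (hu l) (Real.exp_pos _).le
    · by_cases h1' : (l : ℕ) = 1
      · refine le_max_of_le_right ?_
        simp only [hz, X, yv, ev, h1', if_true, if_neg one_ne_zero]
        rw [mul_comm]
        exact mul_le_mul_of_nonneg_left (hu' l) (Real.exp_pos _).le
      · refine le_max_of_le_left ?_
        simp only [hz, X, yv, ev, if_neg h0, if_neg h1']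
        rw [mul_comm]
        exact mul_le_mul_of_nonneg_left (hu l) (Real.exp_pos _).le
  calc δ ^ d * Real.exp N ≤ δ ^ d * Real.exp ((c' : ℝ) ^ 2 - (c : ℝ) ^ 2) :=
        mul_le_mul_of_nonneg_left (Real.exp_le_exp.2 h2) (by positivity)
    _ = vol z := h1.symm
    _ ≤ _ := vol_mono (fun l => mul_pos hδ (Real.exp_pos _)) h3

/-- The deterministic bound on the good event. -/
lemma good (hd : 2 ≤ d) {δ : ℝ} (hδ : 0 < δ) {n N : ℕ} (hnN : (n : ℝ) ^ 2 ≤ δ ^ d * Real.exp N)
    {ω : Fin n → (Fin d → ℝ) × ℕ} (hpos : ∀ i l, 0 < (ω i).1 l)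
    (hcol : ¬ ∃ i j, i ≠ j ∧ (ω i).2 = (ω j).2 ∧ N ≤ (ω i).2) {G : Measure (Fin d → ℝ)}
    (hG : IsMLE (fun i => X (ω i)) G) :
    ENNReal.ofReal ((∑ i, T δ N (ω i)) / n) ≤ atOrigin G + 1 := by
  classical
  set S : Finset (Fin n) := Finset.univ.filter fun i => N ≤ (ω i).2 ∧ ∀ l, δ ≤ (ω i).1 l with hS
  have hx : ∀ i l, 0 < X (ω i) l := fun i l => mul_pos (yv_pos _ l) (hpos i l)
  have h1 : ∑ i, T δ N (ω i) = ∑ i ∈ S, 1 / vol (X (ω i)) := by
    rw [hS, Finset.sum_filter]
    refine Finset.sum_congr rfl fun i _ => ?_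
    split_ifs with h
    · unfold T ii
      rw [Set.indicator_of_mem (show (ω i).2 ∈ Set.Ici N from h.1), mul_one, vol_X hd]
      unfold vol
      rw [one_div, ← Finset.prod_inv_distrib]
      refine Finset.prod_congr rfl fun l _ => ?_
      unfold gg
      rw [if_pos (h.2 l), one_div]
    · unfold T
      by_cases h2 : N ≤ (ω i).2
      · have h3 : ∃ l, ¬ δ ≤ (ω i).1 l := by
          by_contra h4
          push Not at h4
          exact h ⟨h2, h4⟩
        obtain ⟨l, hl⟩ := h3
        rw [Finset.prod_eq_zero (Finset.mem_univ l) (by unfold gg; rw [if_neg hl]), zero_mul]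
      · unfold ii
        rw [Set.indicator_of_notMem (show (ω i).2 ∉ Set.Ici N from h2), mul_zero]
  rw [h1]
  refine atOrigin_ge hG hx S fun i hi j hj hij => ?_
  have hi' := (Finset.mem_filter.1 hi).2
  have hj' := (Finset.mem_filter.1 hj).2
  have hne : (ω i).2 ≠ (ω j).2 := fun h => hcol ⟨i, j, hij, h, hi'.1⟩
  refine hnN.trans ?_
  rcases lt_or_gt_of_ne hne with h | h
  · exact vol_join hd hδ hi'.1 h hi'.2 hj'.2
  · have h2 := vol_join hd hδ hj'.1 h hj'.2 hi'.2
    simp only [max_comm (X (ω i) _)]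
    exact h2

lemma ae_pos (n : ℕ) : ∀ᵐ ω ∂(LatN d n), ∀ i l, 0 < (ω i).1 l := by
  have h1 : ∀ᵐ u ∂(unif d), ∀ l, 0 < u l := by
    rw [unif_eq]
    filter_upwards [ae_restrict_mem (MeasurableSet.univ_pi fun _ : Fin d =>
      (measurableSet_Ioc : MeasurableSet (Set.Ioc (0 : ℝ) 1)))] with u hu l
    exact (hu l (Set.mem_univ l)).1
  have h2 : ∀ᵐ p ∂(Lat d), ∀ l, 0 < p.1 l :=
    (measurePreserving_fst (μ := unif d) (ν := lab)).quasiMeasurePreserving.ae h1
  refine ae_all_iff.2 fun i => ?_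
  exact (measurePreserving_eval (fun _ : Fin n => Lat d) i).quasiMeasurePreserving.ae h2

/-- The bad event. -/
lemma bad_event (hd : 2 ≤ d) {n : ℕ} (hn : 0 < n) (N : ℕ) {δ m : ℝ} (hδ : 0 < δ) (hδ1 : δ ≤ 1)
    (hm : 0 < m) (hmT : (Real.log (1 / δ)) ^ d * tt N = m)
    (hnN : (n : ℝ) ^ 2 ≤ δ ^ d * Real.exp N) {q : ℝ} (hq0 : 0 ≤ q) (hq : q + 1 < m / 2) :
    1 ≤ Measure.pi (fun _ : Fin n => law (G0 d)) {x | (∃ G, IsMLE x G) ∧
      ∀ G, IsMLE x G → ENNReal.ofReal q < atOrigin G} +
      ENNReal.ofReal ((n : ℝ) ^ 2 / ((N : ℝ) + 1) + 4 * ((1 / δ) ^ d) ^ 2 / (n * m ^ 2)) := by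
  have hn' : (0 : ℝ) < n := by exact_mod_cast hn
  have : NeZero n := ⟨hn.ne'⟩
  set E : Set (Fin n → Fin d → ℝ) := {x | (∃ G, IsMLE x G) ∧
      ∀ G, IsMLE x G → ENNReal.ofReal q < atOrigin G} with hE
  have hΦ : Measurable fun (ω : Fin n → (Fin d → ℝ) × ℕ) (i : Fin n) => X (ω i) :=
    measurable_pi_lambda _ fun i => measurable_X.comp (measurable_pi_apply i)
  have h1 : Measure.pi (fun _ : Fin n => law (G0 d)) =
      (LatN d n).map fun ω i => X (ω i) := by
    have : IsProbabilityMeasure ((Lat d).map X) :=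
      Measure.isProbabilityMeasure_map measurable_X.aemeasurable
    unfold LatN
    rw [Measure.pi_map_pi (f := fun _ : Fin n => X) fun _ => measurable_X.aemeasurable, law_G0 hd]
  have h2 : LatN d n ((fun ω i => X (ω i)) ⁻¹' E) ≤
      Measure.pi (fun _ : Fin n => law (G0 d)) E := by
    rw [h1]
    exact Measure.le_map_apply hΦ.aemeasurable E
  have h3 : LatN d n (((fun ω i => X (ω i)) ⁻¹' E)ᶜ) ≤
      ENNReal.ofReal ((n : ℝ) ^ 2 / ((N : ℝ) + 1) + 4 * ((1 / δ) ^ d) ^ 2 / (n * m ^ 2)) := by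
    rw [ENNReal.ofReal_add (by positivity) (by positivity)]
    refine le_trans ?_ (add_le_add (collision (d := d) n N)
      (chebyshev hδ n N hn hm ((integral_T hδ hδ1 N).trans hmT)))
    refine le_trans ?_ (measure_union_le _ _)
    refine measure_mono_ae ?_
    filter_upwards [ae_pos (d := d) n] with ω hω hnot
    by_contra hcon
    apply hnot
    have hcol : ¬ ∃ i j, i ≠ j ∧ (ω i).2 = (ω j).2 ∧ N ≤ (ω i).2 := fun h =>
      hcon (Or.inl h)
    have hsum : n * m / 2 ≤ ∑ i, T δ N (ω i) := by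
      by_contra h
      exact hcon (Or.inr (not_le.1 h))
    refine ⟨exists_isMLE fun i l => mul_pos (yv_pos _ l) (hω i l), fun G hG => ?_⟩
    have h4 := good hd hδ hnN hω hcol hG
    by_contra h5
    rw [not_lt] at h5
    have h6 : ENNReal.ofReal (m / 2) ≤ ENNReal.ofReal (q + 1) := by
      calc ENNReal.ofReal (m / 2) ≤ ENNReal.ofReal ((∑ i, T δ N (ω i)) / n) := by
            apply ENNReal.ofReal_le_ofReal
            rw [le_div_iff₀ hn']
            linarith
        _ ≤ atOrigin G + 1 := h4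
        _ ≤ ENNReal.ofReal q + 1 := add_le_add h5 le_rfl
        _ = ENNReal.ofReal (q + 1) := by
            rw [ENNReal.ofReal_add hq0 (by norm_num), ENNReal.ofReal_one]
    rw [ENNReal.ofReal_le_ofReal_iff (by linarith)] at h6
    linarith
  calc (1 : ℝ≥0∞) = LatN d n Set.univ := measure_univ.symm
    _ = LatN d n (((fun ω i => X (ω i)) ⁻¹' E) ∪ ((fun ω i => X (ω i)) ⁻¹' E)ᶜ) := by
        rw [Set.union_compl_self]
    _ ≤ _ := (measure_union_le _ _).trans (add_le_add h2 h3)

/-- The constant. -/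
noncomputable def κ (d : ℕ) : ℝ := 1 / 12 * (1 / (4 * d)) ^ d

lemma κ_pos (hd : 2 ≤ d) : 0 < κ d := by
  unfold κ
  have : (0 : ℝ) < d := by exact_mod_cast (by omega : 0 < d)
  positivity

/-- The lower bound. -/
noncomputable def lowerBound (d n : ℕ) : ℝ := κ d * Real.log n ^ (d - 1) * √(Real.log n)

lemma tendsto_lowerBound (hd : 2 ≤ d) : Tendsto (lowerBound d) atTop atTop := by
  have h1 : Tendsto (fun n : ℕ => Real.log n) atTop atTop :=
    Real.tendsto_log_atTop.comp tendsto_natCast_atTop_atTop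
  have h2 : Tendsto (fun n : ℕ => κ d * Real.log n ^ (d - 1)) atTop atTop :=
    ((tendsto_pow_atTop (by omega)).comp h1).const_mul_atTop (κ_pos hd)
  exact h2.atTop_mul_atTop₀ (Real.tendsto_sqrt_atTop.comp h1)

lemma main_bound (hd : 2 ≤ d) : ∀ᶠ n : ℕ in atTop,
    1 ≤ Measure.pi (fun _ : Fin n => law (G0 d)) {x | (∃ G, IsMLE x G) ∧
      ∀ G, IsMLE x G → ENNReal.ofReal (lowerBound d n) < atOrigin G} +
      ENNReal.ofReal (1 / n + 4 / √n) := by
  have hd0 : (0 : ℝ) < d := by exact_mod_cast (by omega : 0 < d)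
  filter_upwards [(tendsto_lowerBound hd).eventually_gt_atTop 1, eventually_ge_atTop 3] with n hq hn
  have hn3 : (3 : ℝ) ≤ n := by exact_mod_cast hn
  have hn0 : (0 : ℝ) < n := by linarith
  set L := Real.log n with hL
  have hL1 : 1 ≤ L := by
    rw [hL, Real.le_log_iff_exp_le hn0]
    linarith [Real.exp_one_lt_d9]
  have hLn : L ≤ n := (Real.log_le_sub_one_of_pos hn0).trans (by linarith)
  have hexpL : Real.exp L = n := Real.exp_log hn0
  set δ := Real.exp (-(L / (4 * d))) with hδ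
  have hδ0 : 0 < δ := Real.exp_pos _
  have hδ1 : δ ≤ 1 := by
    rw [hδ, Real.exp_le_one_iff]
    have : 0 ≤ L / (4 * d) := by positivity
    linarith
  have hlog : Real.log (1 / δ) = L / (4 * d) := by
    rw [hδ, one_div, Real.log_inv, Real.log_exp, neg_neg]
  have hδd : δ ^ d = Real.exp (-(L / 4)) := by
    rw [hδ, ← Real.exp_nat_mul]
    congr 1
    field_simp
  have hB : ((1 / δ) ^ d) ^ 2 = √n := by
    rw [one_div, inv_pow, hδd, ← Real.exp_neg, neg_neg, ← Real.exp_nat_mul,
      Real.sqrt_eq_rpow, Real.rpow_def_of_pos hn0, ← hL]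
    congr 1
    push_cast
    ring
  set m := (L / (4 * d)) ^ d * tt (n ^ 3) with hm
  have hsq : 0 < √L := Real.sqrt_pos.2 (by linarith)
  have htt : 1 / (3 * √L) ≤ tt (n ^ 3) := by
    unfold tt
    have h1 : Real.log (1 + ((n ^ 3 : ℕ) : ℝ)) ≤ 1 + 3 * L := by
      have h2 : 1 + ((n ^ 3 : ℕ) : ℝ) ≤ Real.exp (1 + 3 * L) := by
        rw [Real.exp_add, show 3 * L = ((3 : ℕ) : ℝ) * L by norm_num, Real.exp_nat_mul, hexpL]
        push_cast
        have h3 : (2 : ℝ) ≤ Real.exp 1 := by linarith [Real.add_one_le_exp (1 : ℝ)]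
        have h4 : (1 : ℝ) ≤ (n : ℝ) ^ 3 := one_le_pow₀ (by linarith)
        nlinarith
      calc Real.log (1 + ((n ^ 3 : ℕ) : ℝ)) ≤ Real.log (Real.exp (1 + 3 * L)) :=
            Real.log_le_log (by positivity) h2
        _ = _ := Real.log_exp _
    have h5 : 0 < 1 + Real.log (1 + ((n ^ 3 : ℕ) : ℝ)) := by
      have := one_le_arg (n ^ 3)
      linarith
    refine one_div_le_one_div_of_le (Real.sqrt_pos.2 h5) ?_
    have h6 : √(1 + Real.log (1 + ((n ^ 3 : ℕ) : ℝ))) ≤ √(3 ^ 2 * L) :=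
      Real.sqrt_le_sqrt (by linarith)
    rwa [Real.sqrt_mul (by norm_num), Real.sqrt_sq (by norm_num)] at h6
  set q := lowerBound d n with hqdef
  have hmq : 2 * q ≤ m / 2 := by
    have h1 : 2 * q = (L / (4 * d)) ^ d * (1 / (3 * √L)) / 2 := by
      rw [hqdef]
      unfold lowerBound κ
      rw [← hL]
      have h2 : L ^ d = L ^ (d - 1) * L := by
        rw [← pow_succ]
        congr 1
        omega
      have h3 : L = √L * √L := (Real.mul_self_sqrt (by linarith)).symm
      rw [div_pow L, h2, one_div_pow]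
      have h4 : L / √L = √L := by
        rw [div_eq_iff hsq.ne']
        exact h3
      calc 2 * (1 / 12 * (1 / (4 * (d : ℝ)) ^ d) * L ^ (d - 1) * √L)
          = 1 / 6 * (1 / (4 * (d : ℝ)) ^ d) * L ^ (d - 1) * (L / √L) := by rw [h4]; ring
        _ = L ^ (d - 1) * L / (4 * (d : ℝ)) ^ d * (1 / (3 * √L)) / 2 := by
            field_simp
            norm_num
    rw [h1, hm]
    gcongr
  have hm0 : 4 < m := by linarith
  have hcast : ((n ^ 3 : ℕ) : ℝ) = (n : ℝ) ^ 3 := by push_cast; ring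
  have hnN : (n : ℝ) ^ 2 ≤ δ ^ d * Real.exp ((n ^ 3 : ℕ) : ℝ) := by
    rw [hδd, ← Real.exp_add, hcast]
    have h1 : (n : ℝ) ^ 2 = Real.exp (2 * L) := by
      rw [show 2 * L = ((2 : ℕ) : ℝ) * L by norm_num, Real.exp_nat_mul, hexpL]
    rw [h1, Real.exp_le_exp]
    nlinarith [mul_le_mul hn3 hn3 (by norm_num) hn0.le]
  have hmain := bad_event hd (by omega : 0 < n) (n ^ 3) hδ0 hδ1 (by linarith : 0 < m)
    (by rw [hlog]) hnN (by linarith : 0 ≤ q) (by linarith)
  refine hmain.trans (add_le_add le_rfl (ENNReal.ofReal_le_ofReal ?_))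
  refine add_le_add ?_ ?_
  · rw [hcast, div_le_div_iff₀ (by positivity) hn0]
    nlinarith [sq_nonneg (n : ℝ)]
  · rw [hB]
    have hsn : 0 < √(n : ℝ) := Real.sqrt_pos.2 hn0
    have hsn2 : √(n : ℝ) * √n = n := Real.mul_self_sqrt hn0.le
    rw [div_le_div_iff₀ (by positivity) hsn]
    have h1 : 1 ≤ m ^ 2 := one_le_pow₀ (by linarith)
    calc 4 * √(n : ℝ) * √n = 4 * (√(n : ℝ) * √n) := by ring
      _ = 4 * n := by rw [hsn2]
      _ ≤ 4 * (n * m ^ 2) := by nlinarith

end Final

/-- **The MLE at the origin is not `O((log n)^(d-1))`.** For every `d ≥ 2` there is a mixing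
distribution `G₀` on `(0, ∞)^d` whose density `f₀` has `f₀ (0) = 1` such that, for i.i.d. samples of
size `n` from `f₀`, with probability tending to one there is a maximum likelihood estimator and
every maximum likelihood estimator `G` satisfies `f_G (0) > κ (log n)^(d - 1) √(log n)`, with
`κ > 0`. In particular `f_G (0) > M (log n)^(d - 1)` with probability tending to one for
every `M`. -/
theorem result (d : ℕ) (hd : 2 ≤ d) : ∃ G₀ : Measure (Fin d → ℝ),
    Mixing G₀ ∧ atOrigin G₀ = 1 ∧ IsProbabilityMeasure (law G₀) ∧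
    (∃ κ : ℝ, 0 < κ ∧ Tendsto (fun n : ℕ => Measure.pi (fun _ : Fin n => law G₀)
      {x | (∃ G, IsMLE x G) ∧ ∀ G, IsMLE x G →
        ENNReal.ofReal (κ * Real.log n ^ (d - 1) * √(Real.log n)) < atOrigin G})
      atTop (𝓝 1)) ∧
    ∀ M : ℝ, Tendsto (fun n : ℕ => Measure.pi (fun _ : Fin n => law G₀)
      {x | (∃ G, IsMLE x G) ∧ ∀ G, IsMLE x G →
        ENNReal.ofReal (M * Real.log n ^ (d - 1)) < atOrigin G})
      atTop (𝓝 1) := by
  have hprob : IsProbabilityMeasure (law (G0 d)) := by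
    rw [law_G0 hd]
    exact Measure.isProbabilityMeasure_map measurable_X.aemeasurable
  have h1 : Tendsto (fun n : ℕ => Measure.pi (fun _ : Fin n => law (G0 d))
      {x | (∃ G, IsMLE x G) ∧ ∀ G, IsMLE x G →
        ENNReal.ofReal (lowerBound d n) < atOrigin G}) atTop (𝓝 1) := by
    have h2 : Tendsto (fun n : ℕ => (1 : ℝ) / n + 4 / √n) atTop (𝓝 (0 + 0)) := by
      refine Tendsto.add (tendsto_const_nhds.div_atTop tendsto_natCast_atTop_atTop) ?_
      exact tendsto_const_nhds.div_atTop (Real.tendsto_sqrt_atTop.comp tendsto_natCast_atTop_atTop)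
    rw [add_zero] at h2
    have h3 : Tendsto (fun n : ℕ => (1 : ℝ≥0∞) - ENNReal.ofReal (1 / n + 4 / √n)) atTop
        (𝓝 (1 - ENNReal.ofReal 0)) :=
      ENNReal.Tendsto.sub tendsto_const_nhds (ENNReal.tendsto_ofReal h2) (Or.inl ENNReal.one_ne_top)
    rw [ENNReal.ofReal_zero, tsub_zero] at h3
    refine tendsto_of_tendsto_of_tendsto_of_le_of_le' h3 tendsto_const_nhds ?_
      (Filter.Eventually.of_forall fun n => prob_le_one)
    filter_upwards [main_bound hd] with n hn
    exact tsub_le_iff_right.2 hn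
  refine ⟨G0 d, mixing_G0, atOrigin_G0 hd, hprob, ⟨κ d, κ_pos hd, h1⟩, fun M => ?_⟩
  refine tendsto_of_tendsto_of_tendsto_of_le_of_le' h1 tendsto_const_nhds ?_
    (Filter.Eventually.of_forall fun n => prob_le_one)
  have h4 : Tendsto (fun n : ℕ => κ d * √(Real.log n)) atTop atTop :=
    (Real.tendsto_sqrt_atTop.comp
      (Real.tendsto_log_atTop.comp tendsto_natCast_atTop_atTop)).const_mul_atTop (κ_pos hd)
  filter_upwards [h4.eventually_ge_atTop M, eventually_ge_atTop 1] with n hn hn1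
  refine measure_mono fun x hx => ⟨hx.1, fun G hG => lt_of_le_of_lt ?_ (hx.2 G hG)⟩
  apply ENNReal.ofReal_le_ofReal
  unfold lowerBound
  have h5 : 0 ≤ Real.log n ^ (d - 1) := pow_nonneg (Real.log_nonneg (by exact_mod_cast hn1)) _
  nlinarith

end Pool.Agent.Results.MP_a4ac49_pr.OriginBlowup
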